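import Pool.Agent.H52.GHK.HKG
import Pool.Agent.H95.GHK.JKG
import Pool.Agent.H44.GHK.IPT
import Pool.Agent.H81.GHK.KAP
import Pool.Agent.H83.GHK.PHK
import Pool.Agent.H96.GHK.VOK
import Pool.Agent.H34.GU.All

/-!
Row HKW of the board ghk, composed, no hypotheses.
-/

set_option autoImplicit false

namespace Pool.Agent.H52.GHK

open Pool.Agent.H34.GM Pool.Agent.H34.GZ Pool.Agent.H34.GU Pool.Agent.H34.GA Pool.Agent.H68.GHK

theorem c_JKG : T_JKG := Pool.Agent.H95.GHK.jkg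

theorem c_IPT : Pool.Agent.H68.GHK.T_IPT :=
  Pool.Agent.H44.GHK.pf_IPT Pool.Agent.H34.GZ.a_VLM Pool.Agent.H34.GZ.a_RTI Pool.Agent.H34.GU.b_ALU

theorem c_PHK : Pool.Agent.H68.GHK.T_PHK :=
  Pool.Agent.H83.GHK.pf_PHK Pool.Agent.H34.GZ.g_MSR Pool.Agent.H34.GZ.g_HAR
    Pool.Agent.H34.GZ.g_HAC Pool.Agent.H34.GZ.g_PWC Pool.Agent.H34.GZ.a_VLM
    Pool.Agent.H34.GZ.a_RTI Pool.Agent.H34.GU.b_ALU

/-- the matrix coefficient near `1` -/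
theorem c_HKW : Pool.Agent.H68.GHK.T_HKW :=
  pf_HKG c_IPT c_PHK Pool.Agent.H81.GHK.pf_KAP c_JKG
    (Pool.Agent.H96.GHK.pf_VOK Pool.Agent.H34.GZ.g_HAR)

end Pool.Agent.H52.GHK
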